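import Mathlib

/-!
Unnormalised Hamming distance between permutations of a finite type.
-/

set_option autoImplicit false

namespace Pool.Agent.H845Z.Ham

open Finset Equiv

variable {X : Type*} [Fintype X] [DecidableEq X]

/-- The number of points where two permutations differ. -/
def D (σ τ : Perm X) : ℕ := (univ.filter (fun i => σ i ≠ τ i)).card

lemma D_self (σ : Perm X) : D σ σ = 0 := by simp [D]

lemma D_comm (σ τ : Perm X) : D σ τ = D τ σ := by
  unfold D; congr 1; ext i; simp [ne_comm]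

lemma D_triangle (σ τ ρ : Perm X) : D σ ρ ≤ D σ τ + D τ ρ := by
  unfold D
  refine le_trans (card_le_card ?_) (card_union_le _ _)
  intro i hi
  simp only [mem_filter, mem_univ, true_and, mem_union] at hi ⊢
  by_contra h
  push Not at h
  exact hi (h.1.trans h.2)

lemma D_mul_left (ρ σ τ : Perm X) : D (ρ * σ) (ρ * τ) = D σ τ := by
  unfold D; congr 1; ext i; simp

lemma D_mul_right (ρ σ τ : Perm X) : D (σ * ρ) (τ * ρ) = D σ τ := by
  unfold D
  apply card_bij (fun i _ => ρ i)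
  · intro i hi; simpa using hi
  · intro i _ j _ h; exact ρ.injective h
  · intro j hj
    refine ⟨ρ.symm j, ?_, by simp⟩
    simpa using hj

lemma D_mul_le (σ₁ σ₂ τ₁ τ₂ : Perm X) :
    D (σ₁ * σ₂) (τ₁ * τ₂) ≤ D σ₁ τ₁ + D σ₂ τ₂ := by
  have h := D_triangle (σ₁ * σ₂) (τ₁ * σ₂) (τ₁ * τ₂)
  rwa [D_mul_right, D_mul_left] at h

lemma D_inv (σ τ : Perm X) : D σ⁻¹ τ⁻¹ = D σ τ := by
  have h1 : D σ⁻¹ τ⁻¹ = D (σ * (σ⁻¹ * τ)) (σ * (τ⁻¹ * τ)) := by
    rw [D_mul_left, D_mul_right]
  rw [h1, D_comm]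
  simp

lemma D_congr {Y : Type*} [Fintype Y] [DecidableEq Y] (e : X ≃ Y) (σ τ : Perm X) :
    D (e.permCongrHom σ) (e.permCongrHom τ) = D σ τ := by
  unfold D
  symm
  apply card_bij (fun i _ => e i)
  · intro i hi; simpa [Equiv.permCongrHom_coe] using hi
  · intro i _ j _ h; exact e.injective h
  · intro j hj
    refine ⟨e.symm j, ?_, by simp⟩
    simpa [Equiv.permCongrHom_coe] using hj

end Pool.Agent.H845Z.Ham
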