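import Mathlib
import Pool.Agent.H845Z.Ham

/-!
The amalgam of two copies of `BS(1,n)` along base generator = stable letter is not stable in
permutations.
-/

set_option autoImplicit false

namespace Pool.Agent.H845Z.BSAm

open Finset Equiv Pool.Agent.H845Z.Ham

/-- In a finite group the relations force `x⁻¹ c x` to commute with `c`, `x = b a b⁻¹`. -/
lemma exact_comm {G : Type*} [Group G] [Finite G] (n : ℕ) (a b c : G)
    (h1 : b⁻¹ * a * b = a ^ n) (h2 : a⁻¹ * c * a = c ^ n) :
    (b * a⁻¹ * b⁻¹) * c * (b * a * b⁻¹) * c = c * ((b * a⁻¹ * b⁻¹) * c * (b * a * b⁻¹)) := by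
  set x := b * a * b⁻¹ with hx
  have hxn : x ^ n = a := by
    rw [hx, conj_pow, ← h1]; group
  have hord : orderOf x = orderOf a := by
    rw [hx]
    exact (MulAut.conj b).orderOf_eq a
  have hcop : (orderOf x).Coprime n := by
    have h3 := orderOf_pow (n := n) x
    rw [hxn, ← hord] at h3
    have hpos : 0 < orderOf x := orderOf_pos x
    have hg : 0 < (orderOf x).gcd n := Nat.gcd_pos_of_pos_left _ hpos
    have h4 := Nat.div_mul_cancel (Nat.gcd_dvd_left (orderOf x) n)
    rw [← h3] at h4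
    have : (orderOf x).gcd n = 1 := by
      have h5 : orderOf x * (orderOf x).gcd n = orderOf x * 1 := by rw [h4, mul_one]
      exact Nat.eq_of_mul_eq_mul_left hpos h5
    exact this
  obtain ⟨r, hr⟩ := exists_pow_eq_self_of_coprime hcop.symm
  rw [hxn] at hr
  have key : ∀ k : ℕ, (a ^ k)⁻¹ * c * a ^ k = c ^ (n ^ k) := by
    intro k
    induction k with
    | zero => simp
    | succ k ih =>
      have : (a ^ (k + 1))⁻¹ * c * a ^ (k + 1) = a⁻¹ * ((a ^ k)⁻¹ * c * a ^ k) * a := by
        rw [pow_succ]; group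
      rw [this, ih]
      have h6 : a⁻¹ * c ^ (n ^ k) * a = (a⁻¹ * c * a) ^ (n ^ k) := by
        have := conj_pow (i := n ^ k) (a := a⁻¹) (b := c)
        simpa using this.symm
      rw [h6, h2, ← pow_mul, pow_succ, mul_comm]
  have hxi : b * a⁻¹ * b⁻¹ = x⁻¹ := by rw [hx]; group
  rw [hxi, ← hr, key r]
  exact ((Commute.refl c).pow_left _).eq

section model

variable (R : Type) [CommRing R]

/-- upper shear -/
def shU (k : R) : Perm (R × R) where
  toFun p := (p.1 + k * p.2, p.2)
  invFun p := (p.1 - k * p.2, p.2)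
  left_inv p := by simp
  right_inv p := by simp

/-- lower shear -/
def shL (k : R) : Perm (R × R) where
  toFun p := (p.1, p.2 + k * p.1)
  invFun p := (p.1, p.2 - k * p.1)
  left_inv p := by simp
  right_inv p := by simp

variable {R}

lemma shU_apply (k : R) (p : R × R) : shU R k p = (p.1 + k * p.2, p.2) := rfl
lemma shL_apply (k : R) (p : R × R) : shL R k p = (p.1, p.2 + k * p.1) := rfl

lemma shU_pow (k : R) (j : ℕ) : shU R k ^ j = shU R (j * k) := by
  induction j with
  | zero => ext p <;> simp [shU_apply]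
  | succ j ih =>
    rw [pow_succ, ih]
    ext p <;> simp [shU_apply]
    ring

lemma shL_pow (k : R) (j : ℕ) : shL R k ^ j = shL R (j * k) := by
  induction j with
  | zero => ext p <;> simp [shL_apply]
  | succ j ih =>
    rw [pow_succ, ih]
    ext p <;> simp [shL_apply]
    ring

lemma fib_pow {Y P : Type} (f : Y → Perm P) (j : ℕ) (y : Y) (p : P) :
    ((Equiv.prodCongrRight f : Perm (Y × P)) ^ j) (y, p) = (y, (f y ^ j) p) := by
  induction j generalizing p with
  | zero => simp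
  | succ j ih =>
    rw [pow_succ, Perm.mul_apply, pow_succ, Perm.mul_apply]
    simp only [Equiv.prodCongrRight_apply]
    exact ih _

end model

/-- The model. -/
theorem model (n : ℕ) (hn : 2 ≤ n) (L : ℕ) (hL : 2 ≤ L) :
    ∃ (X : Type) (_ : Fintype X) (_ : DecidableEq X) (a b c : Perm X),
      Fintype.card X = (n * L - 1) * (n + 1) ^ 2 ∧
      b⁻¹ * a * b = a ^ n ∧ D (a⁻¹ * c * a) (c ^ n) ≤ 2 * (n + 1) ^ 2 ∧
      L - 1 ≤ D ((b * a⁻¹ * b⁻¹) * c * (b * a * b⁻¹) * c)
        (c * ((b * a⁻¹ * b⁻¹) * c * (b * a * b⁻¹))) := by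
  have hnL : 2 * L ≤ n * L := Nat.mul_le_mul_right L hn
  obtain ⟨M, hM⟩ : ∃ M, M + 1 = n * L := ⟨n * L - 1, by omega⟩
  have hM' : n * L - 1 = M := by omega
  have hM2 : 2 * L ≤ M + 1 := by omega
  have : NeZero M := ⟨by omega⟩
  have : Fact (1 < M) := ⟨by omega⟩
  have : Fact (1 < n + 1) := ⟨by omega⟩
  have hinv : (n : ZMod M) * (L : ZMod M) = 1 := by
    rw [← Nat.cast_mul, ← hM]; simp
  let R := ZMod (n + 1)
  have hnR : (n : R) = -1 := by
    have : ((n + 1 : ℕ) : R) = 0 := ZMod.natCast_self (n + 1)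
    push_cast at this
    exact eq_neg_of_add_eq_zero_left this
  let f : ZMod M → Perm (R × R) := fun y =>
    if y.val < L then shU R ((n : R) ^ y.val) else shL R ((n : R) ^ y.val)
  let a : Perm (ZMod M × (R × R)) :=
    { toFun := fun z => (z.1 + 1, z.2)
      invFun := fun z => (z.1 - 1, z.2)
      left_inv := fun z => by simp
      right_inv := fun z => by simp }
  let b : Perm (ZMod M × (R × R)) :=
    { toFun := fun z => ((L : ZMod M) * z.1, z.2)
      invFun := fun z => ((n : ZMod M) * z.1, z.2)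
      left_inv := fun z => by simp [← mul_assoc, hinv]
      right_inv := fun z => by
        have : (L : ZMod M) * (n : ZMod M) = 1 := by rw [mul_comm, hinv]
        simp [← mul_assoc, this] }
  let c : Perm (ZMod M × (R × R)) := Equiv.prodCongrRight f
  have ha : ∀ y p, a (y, p) = (y + 1, p) := fun _ _ => rfl
  have hai : ∀ y p, a⁻¹ (y, p) = (y - 1, p) := fun _ _ => rfl
  have hb : ∀ y p, b (y, p) = ((L : ZMod M) * y, p) := fun _ _ => rfl
  have hbi : ∀ y p, b⁻¹ (y, p) = ((n : ZMod M) * y, p) := fun _ _ => rfl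
  have hc : ∀ y p, c (y, p) = (y, f y p) := fun _ _ => rfl
  have hapow : ∀ (j : ℕ) y p, (a ^ j) (y, p) = (y + j, p) := by
    intro j
    induction j with
    | zero => intro y p; simp
    | succ j ih =>
      intro y p
      rw [pow_succ, Perm.mul_apply, ha, ih]
      congr 1
      push_cast; ring
  have hx : ∀ y p, (b * a * b⁻¹) (y, p) = (y + L, p) := by
    intro y p
    simp only [Perm.mul_apply, hbi, ha, hb]
    congr 1
    rw [mul_add, ← mul_assoc, mul_comm (L : ZMod M), hinv]; ring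
  have hxi : ∀ y p, (b * a⁻¹ * b⁻¹) (y, p) = (y - L, p) := by
    intro y p
    simp only [Perm.mul_apply, hbi, hai, hb]
    congr 1
    rw [mul_sub, ← mul_assoc, mul_comm (L : ZMod M), hinv]; ring
  refine ⟨ZMod M × (R × R), inferInstance, inferInstance, a, b, c, ?_, ?_, ?_, ?_⟩
  · simp only [Fintype.card_prod, ZMod.card, R, hM']; ring
  · ext1 ⟨y, p⟩
    simp only [Perm.mul_apply, hbi, ha, hb, hapow]
    congr 1
    rw [mul_add, ← mul_assoc, hinv]; ring
  · have hsub : (univ.filter (fun i => (a⁻¹ * c * a) i ≠ (c ^ n) i)) ⊆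
        ({((L - 1 : ℕ) : ZMod M), ((M - 1 : ℕ) : ZMod M)} : Finset (ZMod M)) ×ˢ
          (univ : Finset (R × R)) := by
      rintro ⟨y, p⟩ hi
      simp only [mem_filter, mem_univ, true_and] at hi
      simp only [mem_product, mem_insert, mem_singleton, mem_univ, and_true]
      by_contra hcon
      push Not at hcon
      apply hi
      have hy1 : y.val ≠ L - 1 := fun h => hcon.1 (by rw [← h]; simp)
      have hy2 : y.val ≠ M - 1 := fun h => hcon.2 (by rw [← h]; simp)
      have hylt : y.val < M := ZMod.val_lt y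
      have hval : (y + 1).val = y.val + 1 := by
        rw [ZMod.val_add_of_lt] <;> rw [ZMod.val_one]
        omega
      simp only [Perm.mul_apply, ha, hc, hai, c, fib_pow, add_sub_cancel_right]
      congr 1
      simp only [f, hval]
      by_cases hl : y.val < L
      · rw [if_pos hl, if_pos (by omega), shU_pow, pow_succ, mul_comm]
      · rw [if_neg hl, if_neg (by omega), shL_pow, pow_succ, mul_comm]
    refine le_trans (card_le_card hsub) ?_
    rw [card_product]
    have h2 := card_le_two (a := ((L - 1 : ℕ) : ZMod M)) (b := ((M - 1 : ℕ) : ZMod M))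
    have h3 : (univ : Finset (R × R)).card = (n + 1) ^ 2 := by
      simp only [card_univ, Fintype.card_prod, ZMod.card, R]; ring
    rw [h3]
    exact Nat.mul_le_mul_right _ h2
  · unfold D
    rw [← card_range (L - 1)]
    apply card_le_card_of_injOn (fun k : ℕ => ((k : ZMod M), ((1 : R), (0 : R))))
    · intro k hk
      simp only [coe_range, Set.mem_Iio] at hk
      simp only [coe_filter, mem_univ, true_and, Set.mem_ofPred_eq]
      have hkv : (k : ZMod M).val = k := ZMod.val_cast_of_lt (by omega)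
      have hkL : ((k : ZMod M) + L).val = k + L := by
        rw [← Nat.cast_add]; exact ZMod.val_cast_of_lt (by omega)
      have hf1 : f (k : ZMod M) = shU R ((n : R) ^ k) := by
        simp only [f, hkv]; rw [if_pos (by omega)]
      have hf2 : f ((k : ZMod M) + L) = shL R ((n : R) ^ (k + L)) := by
        simp only [f, hkL]; rw [if_neg (by omega)]
      have hw : ∀ y p, (b * a⁻¹ * b⁻¹ * c * (b * a * b⁻¹)) (y, p) = (y, f (y + L) p) := by
        intro y p
        rw [Perm.mul_apply, Perm.mul_apply, hx, hc, hxi, add_sub_cancel_right]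
      rw [Perm.mul_apply, hc, hw, Perm.mul_apply, hw, hc, hf1, hf2]
      simp only [shU_apply, shL_apply]
      intro h
      have h1 := congrArg (fun z => z.2.1) h
      simp only [mul_zero, add_zero, mul_one, zero_add] at h1
      have h2 : (n : R) ^ k * (n : R) ^ (k + L) = 0 := by
        have := h1.symm
        rwa [add_eq_left] at this
      rw [← pow_add, hnR] at h2
      have hu : IsUnit ((-1 : R) ^ (k + (k + L))) := (isUnit_one.neg).pow _
      exact hu.ne_zero h2
    · intro k hk j hj h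
      simp only [coe_range, Set.mem_Iio] at hk hj
      have h1 : (k : ZMod M) = (j : ZMod M) := congrArg Prod.fst h
      have h2 := congrArg ZMod.val h1
      rwa [ZMod.val_cast_of_lt (by omega), ZMod.val_cast_of_lt (by omega)] at h2

theorem not_stable (n : ℕ) (hn : 2 ≤ n) :
    ∃ ε : ℝ, 0 < ε ∧ ∀ δ : ℝ, 0 < δ → ∃ (N : ℕ) (a b c : Perm (Fin N)), 0 < N ∧
      b⁻¹ * a * b = a ^ n ∧ (D (a⁻¹ * c * a) (c ^ n) : ℝ) / N < δ ∧
      ∀ a' b' c' : Perm (Fin N), b'⁻¹ * a' * b' = a' ^ n → a'⁻¹ * c' * a' = c' ^ n →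
        ε ≤ (D a a' : ℝ) / N ∨ ε ≤ (D b b' : ℝ) / N ∨ ε ≤ (D c c' : ℝ) / N := by
  have hn0 : (2 : ℝ) ≤ n := by exact_mod_cast hn
  refine ⟨1 / (32 * n * (n + 1) ^ 2), by positivity, fun δ hδ => ?_⟩
  obtain ⟨L0, hL0⟩ := exists_nat_gt (2 / δ)
  obtain ⟨X, _, _, a, b, c, hcard, h1, h2, h3⟩ := model n hn (L0 + 2) (by omega)
  have hnL : 2 * (L0 + 2) ≤ n * (L0 + 2) := Nat.mul_le_mul_right _ hn
  obtain ⟨M, hM⟩ : ∃ M, M + 1 = n * (L0 + 2) := ⟨n * (L0 + 2) - 1, by omega⟩
  have hM' : n * (L0 + 2) - 1 = M := by omega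
  rw [hM'] at hcard
  let e := Fintype.equivFin X
  let φ := e.permCongrHom
  have hMpos : 0 < M := by omega
  have hN : 0 < Fintype.card X := by rw [hcard]; positivity
  have hNR : (Fintype.card X : ℝ) = M * (n + 1) ^ 2 := by rw [hcard]; push_cast; ring
  have hMR : (M : ℝ) + 1 = n * (L0 + 2) := by exact_mod_cast hM
  have hML : (L0 : ℝ) < M := by exact_mod_cast (by omega : L0 < M)
  have hNpos : (0 : ℝ) < Fintype.card X := by exact_mod_cast hN
  refine ⟨Fintype.card X, φ a, φ b, φ c, hN, ?_, ?_, ?_⟩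
  · rw [← map_inv, ← map_mul, ← map_mul, ← map_pow, h1]
  · rw [← map_inv, ← map_mul, ← map_mul, ← map_pow, D_congr, div_lt_iff₀ hNpos, hNR]
    have h2R : (D (a⁻¹ * c * a) (c ^ n) : ℝ) ≤ 2 * (n + 1) ^ 2 := by exact_mod_cast h2
    have h4 : 2 < δ * M := by
      rw [div_lt_iff₀ hδ] at hL0
      nlinarith
    have h5 : (0 : ℝ) < (n + 1) ^ 2 := by positivity
    nlinarith
  · intro a' b' c' g1 g2
    by_contra hcon
    push Not at hcon
    obtain ⟨ea, eb, ec⟩ := hcon
    have hcomm := exact_comm n a' b' c' g1 g2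
    set A := φ a
    set B := φ b
    set C := φ c
    have hx : D (B * A * B⁻¹) (b' * a' * b'⁻¹) ≤ D B b' + D A a' + D B b' := by
      refine le_trans (D_mul_le _ _ _ _) ?_
      rw [D_inv]
      exact Nat.add_le_add_right (D_mul_le _ _ _ _) _
    have hxi : D (B * A⁻¹ * B⁻¹) (b' * a'⁻¹ * b'⁻¹) ≤ D B b' + D A a' + D B b' := by
      refine le_trans (D_mul_le _ _ _ _) ?_
      rw [D_inv]
      refine Nat.add_le_add_right (le_trans (D_mul_le _ _ _ _) ?_) _
      rw [D_inv]
    have hw : D ((B * A⁻¹ * B⁻¹) * C * (B * A * B⁻¹)) ((b' * a'⁻¹ * b'⁻¹) * c' * (b' * a' * b'⁻¹))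
        ≤ (D B b' + D A a' + D B b') + D C c' + (D B b' + D A a' + D B b') := by
      refine le_trans (D_mul_le _ _ _ _) (Nat.add_le_add (le_trans (D_mul_le _ _ _ _) ?_) hx)
      exact Nat.add_le_add_right hxi _
    have hl := D_mul_le ((B * A⁻¹ * B⁻¹) * C * (B * A * B⁻¹)) C
      ((b' * a'⁻¹ * b'⁻¹) * c' * (b' * a' * b'⁻¹)) c'
    have hr := D_mul_le C ((B * A⁻¹ * B⁻¹) * C * (B * A * B⁻¹)) c'
      ((b' * a'⁻¹ * b'⁻¹) * c' * (b' * a' * b'⁻¹))
    have ht := D_triangle ((B * A⁻¹ * B⁻¹) * C * (B * A * B⁻¹) * C)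
      ((b' * a'⁻¹ * b'⁻¹) * c' * (b' * a' * b'⁻¹) * c')
      (C * ((B * A⁻¹ * B⁻¹) * C * (B * A * B⁻¹)))
    have hs := D_comm (c' * ((b' * a'⁻¹ * b'⁻¹) * c' * (b' * a' * b'⁻¹)))
      (C * ((B * A⁻¹ * B⁻¹) * C * (B * A * B⁻¹)))
    have h3' : L0 + 2 - 1 ≤ D ((B * A⁻¹ * B⁻¹) * C * (B * A * B⁻¹) * C)
        (C * ((B * A⁻¹ * B⁻¹) * C * (B * A * B⁻¹))) := by
      have := D_congr e ((b * a⁻¹ * b⁻¹) * c * (b * a * b⁻¹) * c)
        (c * ((b * a⁻¹ * b⁻¹) * c * (b * a * b⁻¹)))
      simp only [map_mul, map_inv] at this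
      rw [← this] at h3
      exact h3
    rw [hcomm] at ht hl
    have hfin : L0 + 1 ≤ 8 * D B b' + 4 * D A a' + 4 * D C c' := by omega
    have hfinR : (L0 : ℝ) + 1 ≤ 8 * D B b' + 4 * D A a' + 4 * D C c' := by exact_mod_cast hfin
    rw [div_lt_iff₀ hNpos, hNR] at ea eb ec
    have hq : (0 : ℝ) < (n + 1) ^ 2 := by positivity
    have hval : 1 / (32 * (n : ℝ) * (n + 1) ^ 2) * (M * (n + 1) ^ 2) = M / (32 * n) := by
      field_simp
    rw [hval] at ea eb ec
    have hMle : (M : ℝ) / (32 * n) ≤ (L0 + 2) / 32 := by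
      rw [div_le_div_iff₀ (by positivity) (by norm_num)]
      nlinarith
    have hL00 : (0 : ℝ) ≤ L0 := Nat.cast_nonneg _
    linarith

end Pool.Agent.H845Z.BSAm
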